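import Pool.Agent.helper7.AL.SpecL
import Pool.Agent.helper16.AL.LNV

/-! Project AL, row LQA. -/

set_option autoImplicit false

namespace Pool.Agent.LD

open Finset Pool.Agent.helper85.FC Pool.Agent.AT

theorem LQA_form {k : ℕ} (a b : ℕ) (h h' : ℤ) (x : Fin 2 → Fin k → ℤ) (t : Fin (2 * k)) :
    (∃ i, cop 2 (fun _ => 1) ![b, a] ![h, h'] x t = (b, h + x 0 i)) ∨
    (∃ i, cop 2 (fun _ => 1) ![b, a] ![h, h'] x t = (a, h' + x 1 i)) := by
  have key : ∀ (p : Fin 2) (i : Fin k), finProdFinEquiv.symm t = (p, i) →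
      cop 2 (fun _ => 1) ![b, a] ![h, h'] x t = (![b, a] p, ![h, h'] p + x p i) := by
    intro p i hpi
    simp only [cop, hpi]
    ext <;> simp
  obtain ⟨p, i, hpi⟩ : ∃ (p : Fin 2) (i : Fin k), finProdFinEquiv.symm t = (p, i) := ⟨_, _, rfl⟩
  have h1 := key p i hpi
  fin_cases p
  · left
    exact ⟨i, h1⟩
  · right
    exact ⟨i, h1⟩

theorem LQA : LQA_stmt := by
  classical
  intro q k w a b h h' H hkw h1 h2 h3 x hx l hl
  have hxm : ∀ p i, x p i ∈ H i := fun p i => Fintype.mem_piFinset.mp (hx p) i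
  by_cases hlq : l ∣ q * w.factorial
  · refine ⟨0, fun t => ?_⟩
    rcases LQA_form a b h h' x t with ⟨i, hi⟩ | ⟨i, hi⟩
    · rw [hi]
      have e : (((b, h + x 0 i) : ℕ × ℤ).1 : ℤ) * ((0 : ℕ) : ℤ) + ((b, h + x 0 i) : ℕ × ℤ).2 = h + x 0 i := by
        push_cast; ring
      rw [e]
      exact (h1 l hl hlq i _ (hxm 0 i)).1
    · rw [hi]
      have e : (((a, h' + x 1 i) : ℕ × ℤ).1 : ℤ) * ((0 : ℕ) : ℤ) + ((a, h' + x 1 i) : ℕ × ℤ).2 = h' + x 1 i := by
        push_cast; ring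
      rw [e]
      exact (h1 l hl hlq i _ (hxm 1 i)).2
  · have hgt : w < l := by
      by_contra hle
      exact hlq ((Nat.dvd_factorial hl.pos (not_lt.1 hle)).mul_left q)
    have hq' : ¬ l ∣ q := fun h4 => hlq (h4.mul_right _)
    obtain ⟨n, hn⟩ := Pool.Agent.AL.LNV l ((univ : Finset (Fin (2 * k))).image (cop 2 (fun _ => 1) ![b, a] ![h, h'] x)) hl (by
      have c1 : #((univ : Finset (Fin (2 * k))).image (cop 2 (fun _ => 1) ![b, a] ![h, h'] x)) ≤ 2 * k :=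
        le_trans card_image_le (by simp)
      omega) (by
      intro v hv hdv
      obtain ⟨t, -, rfl⟩ := mem_image.mp hv
      rcases LQA_form a b h h' x t with ⟨i, hi⟩ | ⟨i, hi⟩
      · rw [hi] at hdv ⊢
        exact h2 l hl hgt hq' hdv i _ (hxm 0 i)
      · rw [hi] at hdv ⊢
        exact h3 l hl hgt hq' hdv i _ (hxm 1 i))
    exact ⟨n, fun t => hn _ (mem_image_of_mem _ (mem_univ t))⟩

end Pool.Agent.LD
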